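import Pool.Agent.H24.CL.TargetsK

/-!
# Row FI of the board clk (helper65): the critical mean value from the bounded functional, all k
-/

set_option autoImplicit false

open Finset MeasureTheory

namespace Pool.Agent.H65.CLK

open Pool.Agent.H24.CL

/-- the pointwise inequality -/
theorem pw (L I : ℕ) (N : ℝ) (hN : 0 < N) (hI : N ≤ 2 ^ (I + 1)) (x : ℝ) (h0 : 0 ≤ x)
    (h1 : x ≤ 1) :
    x ^ (L + 1) ≤ (∑ i ∈ range (I + 1), 2 * 2 ^ (L + 1) * (1 / (2 : ℝ) ^ i) ^ (L + 1) *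
      max (2 ^ i * x - 1 / 2) 0) + (2 / N) ^ L * x := by
  have hnn : ∀ i ∈ range (I + 1), 0 ≤ 2 * 2 ^ (L + 1) * (1 / (2 : ℝ) ^ i) ^ (L + 1) *
      max (2 ^ i * x - 1 / 2) 0 := by
    intro i _
    positivity
  by_cases hx : 1 / (2 : ℝ) ^ I ≤ x
  · classical
    have hex : ∃ i : ℕ, 1 / (2 : ℝ) ^ i ≤ x := ⟨I, hx⟩
    set i := Nat.find hex with hi
    have hi1 : 1 / (2 : ℝ) ^ i ≤ x := Nat.find_spec hex
    have hi2 : i ≤ I := Nat.find_min' hex hx
    have hi3 : x ≤ 2 * (1 / (2 : ℝ) ^ i) := by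
      rcases Nat.eq_zero_or_pos i with h | h
      · rw [h]
        norm_num
        linarith
      · obtain ⟨l, hl⟩ : ∃ l, i = l + 1 := ⟨i - 1, by omega⟩
        have hnot : ¬ (1 / (2 : ℝ) ^ l ≤ x) := Nat.find_min hex (m := l) (by omega)
        rw [hl, pow_succ]
        have h2 : (0 : ℝ) < 2 ^ l := by positivity
        have h3 : 2 * (1 / ((2 : ℝ) ^ l * 2)) = 1 / (2 : ℝ) ^ l := by
          field_simp
        rw [h3]
        linarith
    have hp : (0 : ℝ) < 2 ^ i := by positivity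
    have hterm : x ^ (L + 1) ≤ 2 * 2 ^ (L + 1) * (1 / (2 : ℝ) ^ i) ^ (L + 1) *
        max (2 ^ i * x - 1 / 2) 0 := by
      have h4 : x ^ (L + 1) ≤ (2 * (1 / (2 : ℝ) ^ i)) ^ (L + 1) :=
        pow_le_pow_left₀ h0 hi3 (L + 1)
      have h5 : (1 : ℝ) / 2 ≤ max (2 ^ i * x - 1 / 2) 0 := by
        apply le_max_of_le_left
        have : (1 : ℝ) ≤ 2 ^ i * x := by
          rw [div_le_iff₀ hp] at hi1
          linarith
        linarith
      have h6 : (0 : ℝ) ≤ (1 / (2 : ℝ) ^ i) ^ (L + 1) := by positivity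
      calc x ^ (L + 1) ≤ (2 * (1 / (2 : ℝ) ^ i)) ^ (L + 1) := h4
        _ = 2 * 2 ^ (L + 1) * (1 / (2 : ℝ) ^ i) ^ (L + 1) * (1 / 2) := by
          rw [mul_pow]
          ring
        _ ≤ _ := mul_le_mul_of_nonneg_left h5 (by positivity)
    have hsum := Finset.single_le_sum hnn (Finset.mem_range.2 (Nat.lt_succ_of_le hi2))
    have : 0 ≤ (2 / N) ^ L * x := by positivity
    linarith
  · have hx' : x < 1 / (2 : ℝ) ^ I := not_le.1 hx
    have hx2 : x ≤ 2 / N := by
      have hp : (0 : ℝ) < 2 ^ I := by positivity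
      rw [le_div_iff₀ hN]
      rw [lt_div_iff₀ hp] at hx'
      calc x * N ≤ x * 2 ^ (I + 1) := mul_le_mul_of_nonneg_left hI h0
        _ = 2 * (x * 2 ^ I) := by ring
        _ ≤ 2 := by linarith
    have hs := Finset.sum_nonneg hnn
    have : x ^ (L + 1) ≤ (2 / N) ^ L * x := by
      calc x ^ (L + 1) = x ^ L * x := by ring
        _ ≤ (2 / N) ^ L * x := mul_le_mul_of_nonneg_right (pow_le_pow_left₀ h0 hx2 L) h0
    linarith

theorem KN_pos (k : ℕ) (hk : 3 ≤ k) : 1 ≤ KN k := by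
  unfold KN
  have : 2 ≤ k * (k + 1) := by nlinarith
  omega

theorem pf_FI (hIT : TK_IT) (hJI : T_JI) (hL2 : T_L2) (hEX : T_EX) : TK_FI := by
  intro k hk
  obtain ⟨C, hC0, hC⟩ := hIT k hk
  obtain ⟨-, -, -, -, -, -, -, hcont, hle⟩ := hEX
  obtain ⟨L, hL⟩ : ∃ L, KN k = L + 1 := ⟨KN k - 1, by have := KN_pos k hk; omega⟩
  refine ⟨4 * 2 ^ (L + 1) * C + 2 ^ (L + 1), fun N hN => ?_⟩
  have hNr : (1 : ℝ) ≤ N := by exact_mod_cast hN
  have hN0 : (0 : ℝ) < N := by linarith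
  rw [hJI (KN k) k N (by omega) hN]
  rw [hL]
  set I := Nat.log 2 N with hI
  have hI1 : (2 : ℝ) ^ I ≤ N := by
    exact_mod_cast Nat.pow_log_le_self 2 (by omega)
  have hI2 : (N : ℝ) ≤ 2 ^ (I + 1) := by
    exact_mod_cast (Nat.lt_pow_succ_log_self (by norm_num) N).le
  have hf : ∀ a : X k, ‖f N a‖ ^ (2 * (L + 1)) =
      (N : ℝ) ^ (2 * (L + 1)) * (‖u N a‖ ^ 2) ^ (L + 1) := by
    intro a
    have : ‖u N a‖ = ‖f N a‖ / N := by
      simp [u]
    rw [this, ← pow_mul, div_pow]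
    field_simp
  have hcu : Continuous (fun a : X k => ‖u N a‖) := (hcont k N).norm
  have hint : ∀ g : X k → ℝ, Continuous g → Integrable g := by
    intro g hg
    exact hg.integrable_of_hasCompactSupport (HasCompactSupport.of_compactSpace _)
  have hpt : ∀ a : X k, (‖u N a‖ ^ 2) ^ (L + 1) ≤
      (∑ i ∈ range (I + 1), 2 * 2 ^ (L + 1) * (1 / (2 : ℝ) ^ i) ^ (L + 1) *
        max (2 ^ i * ‖u N a‖ ^ 2 - 1 / 2) 0) +
      (2 / (N : ℝ)) ^ L * ‖u N a‖ ^ 2 := by
    intro a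
    refine pw L I N hN0 hI2 _ (by positivity) ?_
    exact pow_le_one₀ (norm_nonneg _) (hle k N a)
  have hci : ∀ i : ℕ, Continuous (fun a : X k =>
      2 * 2 ^ (L + 1) * (1 / (2 : ℝ) ^ i) ^ (L + 1) * max (2 ^ i * ‖u N a‖ ^ 2 - 1 / 2) 0) := by
    intro i
    exact continuous_const.mul (((continuous_const.mul (hcu.pow 2)).sub continuous_const).max
      continuous_const)
  have hmain : ∫ a : X k, (‖u N a‖ ^ 2) ^ (L + 1) ≤
      (2 * 2 ^ (L + 1) * C * (I + 1) + 2 ^ (L + 1)) / (N : ℝ) ^ (L + 1) := by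
    calc ∫ a : X k, (‖u N a‖ ^ 2) ^ (L + 1) ≤ ∫ a : X k,
          ((∑ i ∈ range (I + 1), 2 * 2 ^ (L + 1) * (1 / (2 : ℝ) ^ i) ^ (L + 1) *
            max (2 ^ i * ‖u N a‖ ^ 2 - 1 / 2) 0) + (2 / (N : ℝ)) ^ L * ‖u N a‖ ^ 2) := by
          refine integral_mono (hint _ ((hcu.pow 2).pow (L + 1))) (hint _ ?_) hpt
          exact (continuous_finsetSum _ fun i _ => hci i).add
            (continuous_const.mul (hcu.pow 2))
      _ = (∑ i ∈ range (I + 1), ∫ a : X k, 2 * 2 ^ (L + 1) * (1 / (2 : ℝ) ^ i) ^ (L + 1) *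
            max (2 ^ i * ‖u N a‖ ^ 2 - 1 / 2) 0) +
          ∫ a : X k, (2 / (N : ℝ)) ^ L * ‖u N a‖ ^ 2 := by
          rw [← integral_finsetSum _ (fun i _ => hint _ (hci i))]
          exact integral_add (hint _ (continuous_finsetSum _ fun i _ => hci i))
            (hint (fun a => (2 / (N : ℝ)) ^ L * ‖u N a‖ ^ 2) (continuous_const.mul (hcu.pow 2)))
      _ ≤ (∑ i ∈ range (I + 1), 2 * 2 ^ (L + 1) * C / (N : ℝ) ^ (L + 1)) +
          2 ^ (L + 1) / (N : ℝ) ^ (L + 1) := by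
          refine add_le_add (Finset.sum_le_sum fun i hi => ?_) ?_
          · rw [integral_const_mul]
            have hp : (1 : ℝ) ≤ 2 ^ i := one_le_pow₀ (by norm_num)
            have hpi : (2 : ℝ) ^ i ≤ N := by
              refine le_trans ?_ hI1
              exact pow_le_pow_right₀ (by norm_num) (by
                have := Finset.mem_range.1 hi
                omega)
            have h1 := hC (2 ^ i) N hp hpi
            unfold SM at h1
            rw [hL] at h1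
            have hp0 : (0 : ℝ) < 2 ^ i := by linarith
            generalize (∫ a : X k, max (2 ^ i * ‖u N a‖ ^ 2 - 1 / 2) 0) = J at h1 ⊢
            have h2 : 2 * 2 ^ (L + 1) * (1 / (2 : ℝ) ^ i) ^ (L + 1) * J =
                2 * 2 ^ (L + 1) * (((N : ℝ) / 2 ^ i) ^ (L + 1) * J) / (N : ℝ) ^ (L + 1) := by
              rw [div_pow, div_pow, one_pow]
              field_simp
            rw [h2]
            have : 2 * 2 ^ (L + 1) * (((N : ℝ) / 2 ^ i) ^ (L + 1) * J) ≤
                2 * 2 ^ (L + 1) * C := mul_le_mul_of_nonneg_left h1 (by positivity)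
            exact div_le_div_of_nonneg_right this (by positivity)
          · rw [integral_const_mul, hL2 k N (by omega) hN]
            have : (2 / (N : ℝ)) ^ L * (1 / (N : ℝ)) = 2 ^ L / (N : ℝ) ^ (L + 1) := by
              rw [div_pow, pow_succ]
              field_simp
            rw [this]
            refine div_le_div_of_nonneg_right ?_ (by positivity)
            exact pow_le_pow_right₀ (by norm_num) (by omega)
      _ = (2 * 2 ^ (L + 1) * C * (I + 1) + 2 ^ (L + 1)) / (N : ℝ) ^ (L + 1) := by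
          rw [Finset.sum_const, Finset.card_range, nsmul_eq_mul]
          push_cast
          ring
  have hlog0 : 0 ≤ Real.log N := Real.log_nonneg hNr
  have hlogI : (I : ℝ) ≤ 2 * Real.log N := by
    have h1 : (I : ℝ) * Real.log 2 ≤ Real.log N := by
      rw [← Real.log_pow]
      exact Real.log_le_log (by positivity) hI1
    have h2 : (1 : ℝ) / 2 ≤ Real.log 2 := by
      have := Real.log_two_gt_d9
      linarith
    have h3 : (0 : ℝ) ≤ I := Nat.cast_nonneg _
    nlinarith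
  calc ∫ a : X k, ‖f N a‖ ^ (2 * (L + 1))
      = (N : ℝ) ^ (2 * (L + 1)) * ∫ a : X k, (‖u N a‖ ^ 2) ^ (L + 1) := by
        rw [← integral_const_mul]
        exact integral_congr_ae (Filter.Eventually.of_forall hf)
    _ ≤ (N : ℝ) ^ (2 * (L + 1)) *
        ((2 * 2 ^ (L + 1) * C * (I + 1) + 2 ^ (L + 1)) / (N : ℝ) ^ (L + 1)) :=
        mul_le_mul_of_nonneg_left hmain (by positivity)
    _ = (2 * 2 ^ (L + 1) * C * (I + 1) + 2 ^ (L + 1)) * (N : ℝ) ^ (L + 1) := by
        rw [two_mul (L + 1), pow_add]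
        field_simp
    _ ≤ (4 * 2 ^ (L + 1) * C + 2 ^ (L + 1)) * (1 + Real.log N) * (N : ℝ) ^ (L + 1) := by
        refine mul_le_mul_of_nonneg_right ?_ (by positivity)
        have hD : (0 : ℝ) ≤ 2 * 2 ^ (L + 1) * C := mul_nonneg (by positivity) hC0
        have h1 : 2 * 2 ^ (L + 1) * C * (I : ℝ) ≤ 2 * 2 ^ (L + 1) * C * (2 * Real.log N) :=
          mul_le_mul_of_nonneg_left hlogI hD
        have h2 : 0 ≤ 2 * 2 ^ (L + 1) * C * Real.log N := mul_nonneg hD hlog0
        have h3 : (0 : ℝ) ≤ 2 ^ (L + 1) * Real.log N := mul_nonneg (by positivity) hlog0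
        linear_combination h1 + h3 + hD
    _ = (4 * 2 ^ (L + 1) * C + 2 ^ (L + 1)) * (N : ℝ) ^ (L + 1) * (1 + Real.log N) := by ring

end Pool.Agent.H65.CLK
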